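import Pool.Agent.Helper64.RFn.GoalsV

/-!
PROJECT RFn, packet ONEn: one time of a good flow, from the local Myers theorem.
-/

set_option autoImplicit false

namespace Pool.Agent.Helper55.RFn

open Pool.Agent.Helper47.RFn Pool.Agent.Helper73.RFn

theorem frm_of_flow {n : ℕ} {I : Set ℝ} {A θ : ℝ → MF n} (h : FFlow I A θ) {t : ℝ} (ht : t ∈ I) :
    Frm (A t) (θ t) where
  inv := h.inv t ht
  smA := fun a i => (h.flA a i).fam.sm t ht
  smt := fun i a => (h.flt i a).fam.sm t ht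
  nA := h.nA t ht

theorem ef_sq_le {n : ℕ} (A θ : MF n) (a b c d : Fin (n + 1)) (x : EE n) :
    Ef A θ a b c d x ^ 2 ≤ e2f A θ x := by
  unfold e2f
  calc Ef A θ a b c d x ^ 2 ≤ ∑ d', Ef A θ a b c d' x ^ 2 :=
        Finset.single_le_sum (f := fun d' => Ef A θ a b c d' x ^ 2)
          (fun _ _ => sq_nonneg _) (Finset.mem_univ d)
    _ ≤ ∑ c', ∑ d', Ef A θ a b c' d' x ^ 2 :=
        Finset.single_le_sum (f := fun c' => ∑ d', Ef A θ a b c' d' x ^ 2)
          (fun _ _ => Finset.sum_nonneg fun _ _ => sq_nonneg _) (Finset.mem_univ c)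
    _ ≤ ∑ b', ∑ c', ∑ d', Ef A θ a b' c' d' x ^ 2 :=
        Finset.single_le_sum (f := fun b' => ∑ c', ∑ d', Ef A θ a b' c' d' x ^ 2)
          (fun _ _ => Finset.sum_nonneg fun _ _ => Finset.sum_nonneg fun _ _ => sq_nonneg _)
          (Finset.mem_univ b)
    _ ≤ ∑ a', ∑ b', ∑ c', ∑ d', Ef A θ a' b' c' d' x ^ 2 :=
        Finset.single_le_sum (f := fun a' => ∑ b', ∑ c', ∑ d', Ef A θ a' b' c' d' x ^ 2)
          (fun _ _ => Finset.sum_nonneg fun _ _ => Finset.sum_nonneg fun _ _ =>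
            Finset.sum_nonneg fun _ _ => sq_nonneg _)
          (Finset.mem_univ a)

theorem onen (hM : Pool.Agent.Helper64.RFn.MyeStmt) : Pool.Agent.Helper64.RFn.ONEn := by
  intro n C σ hn hC hσ hσ1
  obtain ⟨K, η0, hK, hη0, hM⟩ := hM n hn
  have hC0 : 0 < C := by linarith
  have hsC : 1 ≤ Real.sqrt C := Real.one_le_sqrt.2 hC
  have hsC0 : 0 < Real.sqrt C := by linarith
  set B : ℝ := (Real.sqrt C / η0) ^ (2 / σ) with hB
  refine ⟨max C (max B (K * Real.sqrt C)), hC.trans (le_max_left _ _), ?_⟩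
  intro T l0 A θ hT hl0 hF hG t Q ht htT hQ hp hy
  set C' : ℝ := max C (max B (K * Real.sqrt C)) with hC'
  have c1 : C ≤ C' := le_max_left _ _
  have c2 : B ≤ C' := (le_max_left _ _).trans (le_max_right _ _)
  have c3 : K * Real.sqrt C ≤ C' := (le_max_right _ _).trans (le_max_right _ _)
  have c4 : Real.sqrt C ≤ C' := by nlinarith
  have c5 : K ≤ C' := by nlinarith
  set y : ℝ := t * Q with hyd
  have hy0 : 0 < y := by linarith
  have hQ0 : 0 < Q := by
    obtain ⟨p, hp0, hp⟩ := hp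
    have := (hG.p1 t ht.le htT p hp0).1
    linarith
  set u : ℝ := y ^ (-(σ / 2)) with hu
  have hu0 : 0 < u := Real.rpow_pos_of_pos hy0 _
  have hu2 : u ^ 2 = y ^ (-σ) := by
    rw [hu, ← Real.rpow_natCast, ← Real.rpow_mul hy0.le]
    congr 1
    push_cast
    ring
  have hη : 0 ≤ Real.sqrt C * u := by positivity
  have hη1 : Real.sqrt C * u ≤ η0 := by
    have h1 : Real.sqrt C / η0 ≤ y ^ (σ / 2) := by
      have h2 : B ^ (σ / 2) = Real.sqrt C / η0 := by
        rw [hB, ← Real.rpow_mul (by positivity)]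
        have : 2 / σ * (σ / 2) = 1 := by field_simp
        rw [this, Real.rpow_one]
      rw [← h2]
      exact Real.rpow_le_rpow (by positivity) (c2.trans hy) (by positivity)
    have h3 : u = (y ^ (σ / 2))⁻¹ := Real.rpow_neg hy0.le _
    have h4 : 0 < y ^ (σ / 2) := Real.rpow_pos_of_pos hy0 _
    rw [h3, ← div_eq_mul_inv, div_le_iff₀ h4]
    rw [div_le_iff₀ hη0] at h1
    linarith
  have hη2 : (Real.sqrt C * u) ^ 2 = C * y ^ (-σ) := by
    rw [mul_pow, Real.sq_sqrt hC0.le, hu2]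
  have hp3 := hG.p3 t Q ht htT hQ (c1.trans hy)
  obtain ⟨r1, r2⟩ := hM (A t) (θ t) (frm_of_flow hF ⟨ht.le, htT⟩) Q (Real.sqrt C * u) hQ0 hη hη1
    hQ hp (fun x hx => by rw [hη2]; exact (hp3 x hx).1) (fun x hx a b c d => by
      refine abs_le_of_sq_le_sq ?_ (by positivity)
      rw [mul_pow, hη2]
      exact (ef_sq_le _ _ a b c d x).trans (hp3 x hx).2)
  refine ⟨fun x hx => ⟨?_, fun a b c d => ?_⟩, fun x z hx hz => ?_⟩
  · refine le_trans ?_ (r1 x hx)
    refine mul_le_mul_of_nonneg_right ?_ hQ0.le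
    have : K * (Real.sqrt C * u) ≤ C' * u := by
      rw [← mul_assoc]
      exact mul_le_mul_of_nonneg_right c3 hu0.le
    linarith
  · have h1 : |Ef (A t) (θ t) a b c d x| ≤ Real.sqrt C * u * Q := by
      refine abs_le_of_sq_le_sq ?_ (by positivity)
      rw [mul_pow, hη2]
      exact (ef_sq_le _ _ a b c d x).trans (hp3 x hx).2
    refine h1.trans (mul_le_mul_of_nonneg_right ?_ hQ0.le)
    exact mul_le_mul_of_nonneg_right c4 hu0.le
  · refine (r2 x z hx hz).trans ?_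
    exact div_le_div_of_nonneg_right c5 (Real.sqrt_nonneg _)

end Pool.Agent.Helper55.RFn
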